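import Pool.Agent.Helper26.DA.Goals

/-!
# Project DA: packet NUL
-/

set_option autoImplicit false

namespace Pool.Agent.Helper35.DA

open Pool.Agent.Helper26.DA
open IsLocalRing

universe u v w

variable {A : Type u} [CommRing A] [IsLocalRing A]

theorem mem_mS_iff {n : ℕ} (z : Fin n → A) : z ∈ mS A n ↔ (fun j => residue A (z j)) = 0 := by
  constructor
  · intro h
    funext j
    exact (residue_eq_zero_iff _).2 (h j)
  · intro h j
    exact (residue_eq_zero_iff _).1 (congrFun h j)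

/-- reduction of a linear map -/
theorem exists_red {m n : ℕ} (T : (Fin m → A) →ₗ[A] (Fin n → A)) :
    ∃ T' : (Fin m → ResidueField A) →ₗ[ResidueField A] (Fin n → ResidueField A),
      ∀ z, (fun j => residue A (T z j)) = T' (fun j => residue A (z j)) := by
  refine ⟨Matrix.toLin' ((LinearMap.toMatrix' T).map (residue A)), fun z => ?_⟩
  have h1 : T z = (LinearMap.toMatrix' T).mulVec z := by
    rw [← Matrix.toLin'_apply, Matrix.toLin'_toMatrix']
  rw [h1, Matrix.toLin'_apply]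
  funext j
  exact RingHom.map_mulVec (residue A) _ z j

/-- lifting of a linear map -/
theorem exists_lift {m n : ℕ} (T' : (Fin m → ResidueField A) →ₗ[ResidueField A] (Fin n → ResidueField A)) :
    ∃ T : (Fin m → A) →ₗ[A] (Fin n → A),
      ∀ z, (fun j => residue A (T z j)) = T' (fun j => residue A (z j)) := by
  choose f hf using residue_surjective (R := A)
  refine ⟨Matrix.toLin' ((LinearMap.toMatrix' T').map f), fun z => ?_⟩
  have h1 : ∀ y, T' y = (LinearMap.toMatrix' T').mulVec y := by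
    intro y
    rw [← Matrix.toLin'_apply, Matrix.toLin'_toMatrix']
  rw [h1, Matrix.toLin'_apply]
  have h2 : ((LinearMap.toMatrix' T').map f).map (residue A) = LinearMap.toMatrix' T' := by
    ext i j
    rw [Matrix.map_apply, Matrix.map_apply]
    exact hf _
  funext j
  have h3 := RingHom.map_mulVec (residue A) ((LinearMap.toMatrix' T').map f) z j
  rw [h2] at h3
  exact h3

theorem map_mS {m n : ℕ} (T : (Fin m → A) →ₗ[A] (Fin n → A)) (z : Fin m → A) (hz : z ∈ mS A m) : T z ∈ mS A n := by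
  obtain ⟨T', hT'⟩ := exists_red T
  rw [mem_mS_iff] at hz ⊢
  rw [hT', hz, map_zero]

/-- a generalised inverse modulo the maximal ideal -/
theorem exists_kappa {m n : ℕ} (d : (Fin m → A) →ₗ[A] (Fin n → A)) :
    ∃ κ : (Fin n → A) →ₗ[A] (Fin m → A), ∀ z, d (κ (d z)) - d z ∈ mS A n := by
  obtain ⟨d', hd'⟩ := exists_red d
  obtain ⟨s, hs⟩ := LinearMap.exists_rightInverse_of_surjective d'.rangeRestrict (LinearMap.range_rangeRestrict d')
  obtain ⟨κ', hκ'⟩ := LinearMap.exists_extend s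
  obtain ⟨κ, hκ⟩ := exists_lift κ'
  refine ⟨κ, fun z => ?_⟩
  rw [mem_mS_iff]
  have h1 : (fun j => residue A ((d (κ (d z)) - d z) j)) =
      (fun j => residue A (d (κ (d z)) j)) - fun j => residue A (d z j) := by
    funext j
    rw [Pi.sub_apply, Pi.sub_apply, map_sub]
  rw [h1, hd', hκ, hd', sub_eq_zero]
  have h2 : ∀ y, d' (κ' (d' y)) = d' y := by
    intro y
    have h3 : κ' (d' y) = s ⟨d' y, LinearMap.mem_range_self d' y⟩ := by
      have h4 := congrArg (fun g => g ⟨d' y, LinearMap.mem_range_self d' y⟩) hκ'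
      exact h4
    rw [h3]
    have h5 := congrArg (fun g => ((g ⟨d' y, LinearMap.mem_range_self d' y⟩ : LinearMap.range d') :
      Fin n → ResidueField A)) hs
    exact h5
  exact h2 _

theorem gNUL : G_NUL.{u} := by
  intro A _ _ F g hg hz
  choose κ hκ using fun i => exists_kappa (F.d i)
  -- `d κ b ≡ b` on `Bd`
  have hb : ∀ i, ∀ b ∈ Bd F i, F.d i (κ i b) - b ∈ mS A (F.r i) := by
    intro i b hb
    obtain ⟨x, hx, μ, hμ, rfl⟩ := Submodule.mem_sup.1 hb
    obtain ⟨w, rfl⟩ := hx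
    have h1 : F.d i (κ i (F.d i w + μ)) - (F.d i w + μ) =
        (F.d i (κ i (F.d i w)) - F.d i w) + (F.d i (κ i μ) - μ) := by
      rw [map_add, map_add]
      abel
    rw [h1]
    exact Submodule.add_mem _ (hκ i w) (Submodule.sub_mem _ (map_mS (F.d i) _ (map_mS (κ i) μ hμ)) hμ)
  -- `θ`
  let θ : ∀ i : ℕ, (Fin (F.r i) → A) →ₗ[A] (Fin (F.r i) → A) := fun i => match i with
    | 0 => LinearMap.id - (F.d 0) ∘ₗ (κ 0)
    | (i + 1) => LinearMap.id - (F.d (i + 1)) ∘ₗ (κ (i + 1)) - (κ i) ∘ₗ (F.d i)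
  have hθ0 : ∀ z, θ 0 z = z - F.d 0 (κ 0 z) := fun z => rfl
  have hθs : ∀ i z, θ (i + 1) z = z - F.d (i + 1) (κ (i + 1) z) - κ i (F.d i z) := fun i z => rfl
  have hθZ : ∀ i z, θ i z ∈ Zc F i := by
    intro i z
    cases i with
    | zero => trivial
    | succ i =>
      show F.d i (θ (i + 1) z) ∈ mS A (F.r i)
      rw [hθs, map_sub, map_sub, F.dd, sub_zero, ← neg_sub]
      exact Submodule.neg_mem _ (hκ i z)
  have hθd : ∀ i z, θ i (F.d i z) ∈ mS A (F.r i) := by
    intro i z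
    cases i with
    | zero =>
      rw [hθ0, ← neg_sub]
      exact Submodule.neg_mem _ (hκ 0 z)
    | succ i =>
      rw [hθs, F.dd, map_zero, sub_zero, ← neg_sub]
      exact Submodule.neg_mem _ (hκ (i + 1) z)
  -- `s`
  let s : ∀ i : ℕ, (Fin (F.r i) → A) →ₗ[A] (Fin (F.r (i + 1)) → A) := fun i =>
    (g (i + 1)) ∘ₗ (κ i) + (κ i) ∘ₗ (g i) ∘ₗ (θ i)
  have hs : ∀ i z, s i z = g (i + 1) (κ i z) + κ i (g i (θ i z)) := fun i z => rfl
  -- the main congruences
  have c0 : ∀ z, g 0 z - F.d 0 (s 0 z) ∈ mS A (F.r 0) := by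
    intro z
    have h1 : g 0 z - F.d 0 (s 0 z) = -(F.d 0 (κ 0 (g 0 (θ 0 z))) - g 0 (θ 0 z)) := by
      rw [hs, map_add, hg, hθ0, map_sub]
      abel
    rw [h1]
    exact Submodule.neg_mem _ (hb 0 _ (hz 0 _ (hθZ 0 z)))
  have c1 : ∀ i z, g (i + 1) z - (F.d (i + 1) (s (i + 1) z) + s i (F.d i z)) ∈ mS A (F.r (i + 1)) := by
    intro i z
    have h1 : g (i + 1) z - (F.d (i + 1) (s (i + 1) z) + s i (F.d i z)) =
        -(F.d (i + 1) (κ (i + 1) (g (i + 1) (θ (i + 1) z))) - g (i + 1) (θ (i + 1) z)) -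
          κ i (g i (θ i (F.d i z))) := by
      have h2 : g (i + 1) (θ (i + 1) z) = g (i + 1) z - g (i + 1) (F.d (i + 1) (κ (i + 1) z)) -
          g (i + 1) (κ i (F.d i z)) := by
        rw [hθs, map_sub, map_sub]
      have h3 : F.d (i + 1) (s (i + 1) z) = g (i + 1) (F.d (i + 1) (κ (i + 1) z)) +
          F.d (i + 1) (κ (i + 1) (g (i + 1) (θ (i + 1) z))) := by
        rw [hs, map_add, hg]
      rw [h3, hs, neg_sub, h2]
      abel
    rw [h1]
    exact Submodule.sub_mem _ (Submodule.neg_mem _ (hb _ _ (hz _ _ (hθZ _ z))))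
      (map_mS (κ i) _ (map_mS (g i) _ (hθd i z)))
  let g' : Fam F := fun i => match i with
    | 0 => g 0 - (F.d 0) ∘ₗ (s 0)
    | (i + 1) => g (i + 1) - ((F.d (i + 1)) ∘ₗ (s (i + 1)) + (s i) ∘ₗ (F.d i))
  have hg0 : ∀ z, g' 0 z = g 0 z - F.d 0 (s 0 z) := fun z => rfl
  have hgs : ∀ i z, g' (i + 1) z = g (i + 1) z - (F.d (i + 1) (s (i + 1) z) + s i (F.d i z)) := fun i z => rfl
  refine ⟨g', ?_, ⟨s, ?_, ?_⟩, ?_⟩
  · intro i z
    cases i with
    | zero =>
      rw [hgs, hg0, map_sub, map_add, F.dd, hg]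
      exact congrArg (fun y => g 0 (F.d 0 z) - y) (zero_add _)
    | succ i =>
      rw [hgs, hgs, map_sub, map_add, F.dd, F.dd, map_zero, add_zero, hg]
      exact congrArg (fun y => g (i + 1) (F.d (i + 1) z) - y) (zero_add _)
  · intro z
    rw [hg0]
    abel
  · intro i z
    rw [hgs]
    abel
  · intro i z
    cases i with
    | zero =>
      rw [hg0]
      exact c0 z
    | succ i =>
      rw [hgs]
      exact c1 i z

end Pool.Agent.Helper35.DA
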