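import Pool.Agent.Helper26.DA.Goals

/-!
# Project DA: packet RNG
-/

set_option autoImplicit false

namespace Pool.Agent.Helper35.DA

open Pool.Agent.Helper26.DA
open IsLocalRing

universe u v w

section

variable {E : Type u} [Ring E] {B : Type v} [CommRing B] (C : B →+* E) (ε : E →+* E) {e : ℕ} (D : Fin e → E)
  (h : ℕ → E) (c : ℕ → Fin e → B)

/-- the graded commutator -/
def dl (l : Fin e) (X : E) : E := D l * X - ε X * D l

/-- iterated graded commutators -/
def nst (l : ℕ → Fin e) : ℕ → E → E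
  | 0, X => X
  | (m + 1), X => nst l m (dl ε D (l m) X)

/-- skip the index `j` -/
def skp (j k : ℕ) : ℕ := if k < j then k else k + 1

theorem dl_zero (l : Fin e) : dl ε D l 0 = 0 := by
  unfold dl
  rw [map_zero, mul_zero, zero_mul, sub_zero]

theorem dl_add (l : Fin e) (X Y : E) : dl ε D l (X + Y) = dl ε D l X + dl ε D l Y := by
  unfold dl
  rw [map_add, mul_add, add_mul]
  abel

theorem dl_neg (l : Fin e) (X : E) : dl ε D l (-X) = -dl ε D l X := by
  unfold dl
  rw [map_neg, mul_neg, neg_mul]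
  abel

theorem nst_zero_arg (l : ℕ → Fin e) (m : ℕ) : nst ε D l m 0 = 0 := by
  induction m with
  | zero => rfl
  | succ m ih =>
    show nst ε D l m (dl ε D (l m) 0) = 0
    rw [dl_zero, ih]

theorem nst_add (l : ℕ → Fin e) (m : ℕ) : ∀ X Y : E, nst ε D l m (X + Y) = nst ε D l m X + nst ε D l m Y := by
  induction m with
  | zero => intro X Y; rfl
  | succ m ih =>
    intro X Y
    show nst ε D l m (dl ε D (l m) (X + Y)) = nst ε D l m (dl ε D (l m) X) + nst ε D l m (dl ε D (l m) Y)
    rw [dl_add, ih]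

theorem nst_neg (l : ℕ → Fin e) (m : ℕ) : ∀ X : E, nst ε D l m (-X) = -nst ε D l m X := by
  induction m with
  | zero => intro X; rfl
  | succ m ih =>
    intro X
    show nst ε D l m (dl ε D (l m) (-X)) = -nst ε D l m (dl ε D (l m) X)
    rw [dl_neg, ih]

theorem nst_congr (l l' : ℕ → Fin e) (m : ℕ) (hl : ∀ k < m, l k = l' k) : ∀ X : E, nst ε D l m X = nst ε D l' m X := by
  induction m with
  | zero => intro X; rfl
  | succ m ih =>
    intro X
    show nst ε D l m (dl ε D (l m) X) = nst ε D l' m (dl ε D (l' m) X)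
    rw [hl m (Nat.lt_succ_self m), ih fun k hk => hl k (hk.trans (Nat.lt_succ_self m))]

theorem nst_succ' (l : ℕ → Fin e) (m : ℕ) : ∀ X : E,
    nst ε D l (m + 1) X = dl ε D (l 0) (nst ε D (fun k => l (k + 1)) m X) := by
  induction m with
  | zero => intro X; rfl
  | succ m ih =>
    intro X
    show nst ε D l (m + 1) (dl ε D (l (m + 1)) X) =
      dl ε D (l 0) (nst ε D (fun k => l (k + 1)) m (dl ε D (l (m + 1)) X))
    rw [ih]

variable {C ε D h c}

theorem dl_C (hε : ∀ b, ε (C b) = C b) (hD : ∀ l b, D l * C b = C b * D l) (l : Fin e) (b : B) (Y : E) :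
    dl ε D l (C b * Y) = C b * dl ε D l Y := by
  unfold dl
  rw [map_mul, hε, ← mul_assoc, hD, mul_sub, mul_assoc, mul_assoc]

theorem dl_C' (hε : ∀ b, ε (C b) = C b) (hD : ∀ l b, D l * C b = C b * D l) (l : Fin e) (b : B) :
    dl ε D l (C b) = 0 := by
  unfold dl
  rw [hε, hD, sub_self]

theorem nst_C (hε : ∀ b, ε (C b) = C b) (hD : ∀ l b, D l * C b = C b * D l) (l : ℕ → Fin e) (b : B) (m : ℕ) :
    ∀ Y : E, nst ε D l m (C b * Y) = C b * nst ε D l m Y := by
  induction m with
  | zero => intro Y; rfl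
  | succ m ih =>
    intro Y
    show nst ε D l m (dl ε D (l m) (C b * Y)) = C b * nst ε D l m (dl ε D (l m) Y)
    rw [dl_C hε hD, ih]

theorem dl_h (hh : ∀ i, ε (h i) = -h i) (hDh : ∀ i l, D l * h i + h i * D l = C (c i l)) (l : Fin e) (i : ℕ) (Y : E) :
    dl ε D l (h i * Y) = C (c i l) * Y + -(h i * dl ε D l Y) := by
  unfold dl
  rw [map_mul, hh, ← hDh, mul_sub, add_mul]
  simp only [neg_mul, mul_assoc]
  abel

theorem leibniz (hε : ∀ b, ε (C b) = C b) (hD : ∀ l b, D l * C b = C b * D l) (hh : ∀ i, ε (h i) = -h i)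
    (hDh : ∀ i l, D l * h i + h i * D l = C (c i l)) (i n : ℕ) : ∀ (l : ℕ → Fin e) (Y : E),
    nst ε D l (n + 1) (h i * Y) = (-1) ^ (n + 1) * (h i * nst ε D l (n + 1) Y) +
      ∑ j ∈ Finset.range (n + 1), (-1) ^ (n + j) * (C (c i (l j)) * nst ε D (fun k => l (skp j k)) n Y) := by
  induction n with
  | zero =>
    intro l Y
    show dl ε D (l 0) (h i * Y) = (-1) ^ (0 + 1) * (h i * dl ε D (l 0) Y) +
      ∑ j ∈ Finset.range (0 + 1), (-1) ^ (0 + j) * (C (c i (l j)) * Y)
    rw [dl_h hh hDh]
    simp only [zero_add, Finset.range_one, Finset.sum_singleton, pow_zero, pow_one, one_mul, neg_mul]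
    abel
  | succ n ih =>
    intro l Y
    show nst ε D l (n + 1) (dl ε D (l (n + 1)) (h i * Y)) = _
    rw [dl_h hh hDh, nst_add, nst_neg, nst_C hε hD, ih, Finset.sum_range_succ _ (n + 1)]
    have e1 : nst ε D l (n + 1) (dl ε D (l (n + 1)) Y) = nst ε D l (n + 1 + 1) Y := rfl
    have e2 : ∀ j ∈ Finset.range (n + 1), (-1 : E) ^ (n + j) * (C (c i (l j)) *
        nst ε D (fun k => l (skp j k)) n (dl ε D (l (n + 1)) Y)) =
        -((-1) ^ (n + 1 + j) * (C (c i (l j)) * nst ε D (fun k => l (skp j k)) (n + 1) Y)) := by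
      intro j hj
      have hj' : ¬ n < j := by
        have := Finset.mem_range.1 hj
        omega
      have e3 : nst ε D (fun k => l (skp j k)) (n + 1) Y =
          nst ε D (fun k => l (skp j k)) n (dl ε D (l (skp j n)) Y) := rfl
      have e4 : skp j n = n + 1 := if_neg hj'
      rw [e3, e4]
      have e5 : (-1 : E) ^ (n + 1 + j) = -(-1) ^ (n + j) := by
        rw [show n + 1 + j = n + j + 1 by ring, pow_succ, mul_neg, mul_one]
      rw [e5, neg_mul, neg_neg]
    rw [Finset.sum_congr rfl e2, Finset.sum_neg_distrib, e1]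
    have e6 : nst ε D (fun k => l (skp (n + 1) k)) (n + 1) Y = nst ε D l (n + 1) Y := by
      apply nst_congr
      intro k hk
      show l (skp (n + 1) k) = l k
      rw [show skp (n + 1) k = k from if_pos hk]
    have e7 : (-1 : E) ^ (n + 1 + (n + 1)) = 1 := by
      rw [← two_mul, pow_mul]
      simp
    rw [e6, e7, one_mul]
    have e8 : (-1 : E) ^ (n + 1 + 1) = -(-1) ^ (n + 1) := by
      rw [pow_succ, mul_neg, mul_one]
    rw [e8, neg_mul]
    abel

theorem nst_hpr (hε : ∀ b, ε (C b) = C b) (hD : ∀ l b, D l * C b = C b * D l) (hh : ∀ i, ε (h i) = -h i)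
    (hDh : ∀ i l, D l * h i + h i * D l = C (c i l)) (m : ℕ) : ∀ l : ℕ → Fin e,
    nst ε D l m (hpr h m) = C (Matrix.of fun i j : Fin m => c i (l j)).det := by
  induction m with
  | zero =>
    intro l
    show (1 : E) = _
    rw [Matrix.det_fin_zero, map_one]
  | succ m ih =>
    intro l
    show nst ε D l (m + 1) (h m * hpr h m) = _
    rw [leibniz hε hD hh hDh, nst_succ', ih, dl_C' hε hD, mul_zero, mul_zero, zero_add, Finset.sum_range,
      Matrix.det_succ_row _ (Fin.last m), map_sum]
    apply Finset.sum_congr rfl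
    intro j _
    rw [ih, map_mul, map_mul, map_pow, map_neg, map_one, Fin.val_last, mul_assoc]
    have e1 : (Matrix.of fun i k : Fin m => c i (l (skp j k))) =
        (Matrix.of fun i j : Fin (m + 1) => c i (l j)).submatrix (Fin.last m).succAbove j.succAbove := by
      ext i k
      rw [Matrix.submatrix_apply, Matrix.of_apply, Matrix.of_apply]
      have e2 : ((Fin.last m).succAbove i : ℕ) = i := by
        rw [Fin.succAbove_last]
        rfl
      have e3 : (j.succAbove k : ℕ) = skp j k := by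
        unfold Fin.succAbove skp
        simp only [Fin.lt_def, Fin.val_castSucc]
        split_ifs <;> rfl
      rw [e2, e3]
    rw [e1]
    rfl

end

theorem gRNG : G_RNG.{u, v} := by
  intro E _ B _ C ε e D h c hε hh hD hDh m l h0
  rw [← nst_hpr hε hD hh hDh m l, h0, nst_zero_arg]

end Pool.Agent.Helper35.DA
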